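import Pool.Agent.W2helper18.KG.Stm

/-! PIECE TEN of project KG (helper18) -/

set_option autoImplicit false

open MeasureTheory Finset Filter

namespace Pool.Agent.W2helper24.KG

open Pool.Agent.W2helper18.KG

theorem rr (x y : ℝ) (hx : 0 ≤ x) :
    Real.sqrt (Real.sqrt (x * y)) = Real.sqrt (Real.sqrt x) * Real.sqrt (Real.sqrt y) := by
  rw [Real.sqrt_mul hx, Real.sqrt_mul (Real.sqrt_nonneg _)]

theorem r4 (x : ℝ) (hx : 0 ≤ x) : Real.sqrt (Real.sqrt x) ^ 4 = x := by
  rw [show (4 : ℕ) = 2 * 2 from rfl, pow_mul, Real.sq_sqrt (Real.sqrt_nonneg _), Real.sq_sqrt hx]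

theorem r4' (x : ℝ) (hx : 0 ≤ x) : Real.sqrt (Real.sqrt (x ^ 4)) = x := by
  rw [show (4 : ℕ) = 2 * 2 from rfl, pow_mul, Real.sqrt_sq (by positivity), Real.sqrt_sq hx]

theorem p_ten : P_TEN := by
  intro Q θ c
  induction Q using Finset.induction_on with
  | empty =>
    intro _ V W e hV hW a b ha hb
    simp only [Finset.prod_empty, one_mul]
    have hV' : ∀ v ∈ V, ∀ v' ∈ V, v = v' := fun v hv v' hv' => hV v hv v' hv' (by simp)
    have hW' : ∀ w ∈ W, ∀ w' ∈ W, w = w' := fun w hw w' hw' => hW w hw w' hw' (by simp)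
    rcases V.eq_empty_or_nonempty with rfl | ⟨v, hv⟩
    · simp only [Finset.sum_empty]; positivity
    rcases W.eq_empty_or_nonempty with rfl | ⟨w, hw⟩
    · simp only [Finset.sum_empty, Finset.sum_const_zero]; positivity
    have eV : V = {v} := by
      ext x
      simp only [Finset.mem_singleton]
      exact ⟨fun hx => hV' x hx v hv, fun h => h ▸ hv⟩
    have eW : W = {w} := by
      ext x
      simp only [Finset.mem_singleton]
      exact ⟨fun hx => hW' x hx w hw, fun h => h ▸ hw⟩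
    rw [eV, eW]
    simp only [Finset.sum_singleton]
    rw [rr _ _ (by positivity), r4' _ (ha v), r4' _ (hb w), mul_pow]
  | insert p Q hp ih =>
    intro hθ V W e hV hW a b ha hb
    have hθ' : ∀ q ∈ Q, 0 ≤ θ q ∧ 0 ≤ c q ∧ LocIneq (θ q) (c q) := fun q hq =>
      hθ q (Finset.mem_insert_of_mem hq)
    obtain ⟨hp0, hcp, hloc⟩ := hθ p (Finset.mem_insert_self p Q)
    have hC : 0 ≤ ∏ q ∈ Q, c q := Finset.prod_nonneg fun q hq => (hθ' q hq).2.1
    -- a bound for the exponents
    obtain ⟨n, hn⟩ : ∃ n, (∀ v ∈ V, e v p < n) ∧ ∀ w ∈ W, e w p < n := by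
      refine ⟨(V.sup fun v => e v p) + (W.sup fun w => e w p) + 1, ?_, ?_⟩
      · intro v hv
        have h1 : e v p ≤ V.sup fun v => e v p := Finset.le_sup (f := fun v => e v p) hv
        omega
      · intro w hw
        have h1 : e w p ≤ W.sup fun w => e w p := Finset.le_sup (f := fun w => e w p) hw
        omega
    have hVm : ∀ v ∈ V, e v p ∈ range n := fun v hv => mem_range.mpr (hn.1 v hv)
    have hWm : ∀ w ∈ W, e w p ∈ range n := fun w hw => mem_range.mpr (hn.2 w hw)
    set VV : ℕ → Finset ℕ := fun i => V.filter fun v => e v p = i with hVV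
    set WW : ℕ → Finset ℕ := fun j => W.filter fun w => e w p = j with hWW
    set S : ℕ → ℝ := fun i => ∑ v ∈ VV i, a v ^ 4 with hS
    set T : ℕ → ℝ := fun j => ∑ w ∈ WW j, b w ^ 4 with hT
    have hS0 : ∀ i, 0 ≤ S i := fun i => Finset.sum_nonneg fun v _ => by have := ha v; positivity
    have hT0 : ∀ j, 0 ≤ T j := fun j => Finset.sum_nonneg fun w _ => by have := hb w; positivity
    have hSs : ∑ i ∈ range n, S i = ∑ v ∈ V, a v ^ 4 :=
      Finset.sum_fiberwise_of_maps_to hVm _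
    have hTs : ∑ j ∈ range n, T j = ∑ w ∈ W, b w ^ 4 :=
      Finset.sum_fiberwise_of_maps_to hWm _
    have key : ∀ i j, ∑ v ∈ VV i, ∑ w ∈ WW j,
        (∏ q ∈ insert p Q, θ q ^ ((e v q - e w q) + (e w q - e v q))) * a v ^ 3 * b w ^ 3 ≤
        (∏ q ∈ Q, c q) * (θ p ^ ((i - j) + (j - i)) * Real.sqrt (Real.sqrt (S i)) ^ 3 *
          Real.sqrt (Real.sqrt (T j)) ^ 3) := by
      intro i j
      have h1 : ∑ v ∈ VV i, ∑ w ∈ WW j,
          (∏ q ∈ insert p Q, θ q ^ ((e v q - e w q) + (e w q - e v q))) * a v ^ 3 * b w ^ 3 =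
          θ p ^ ((i - j) + (j - i)) * ∑ v ∈ VV i, ∑ w ∈ WW j,
            (∏ q ∈ Q, θ q ^ ((e v q - e w q) + (e w q - e v q))) * a v ^ 3 * b w ^ 3 := by
        rw [Finset.mul_sum]
        apply Finset.sum_congr rfl
        intro v hv
        rw [Finset.mul_sum]
        apply Finset.sum_congr rfl
        intro w hw
        rw [Finset.prod_insert hp, (Finset.mem_filter.mp hv).2, (Finset.mem_filter.mp hw).2]
        ring
      rw [h1]
      have h2 := ih hθ' (VV i) (WW j) e
        (fun v hv v' hv' h => hV v (Finset.mem_filter.mp hv).1 v' (Finset.mem_filter.mp hv').1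
          (fun q hq => by
            rcases Finset.mem_insert.mp hq with rfl | hq'
            · rw [(Finset.mem_filter.mp hv).2, (Finset.mem_filter.mp hv').2]
            · exact h q hq'))
        (fun w hw w' hw' h => hW w (Finset.mem_filter.mp hw).1 w' (Finset.mem_filter.mp hw').1
          (fun q hq => by
            rcases Finset.mem_insert.mp hq with rfl | hq'
            · rw [(Finset.mem_filter.mp hw).2, (Finset.mem_filter.mp hw').2]
            · exact h q hq'))
        a b ha hb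
      rw [show ∑ v ∈ VV i, a v ^ 4 = S i from rfl, show ∑ w ∈ WW j, b w ^ 4 = T j from rfl,
        rr _ _ (hS0 i), mul_pow] at h2
      have h3 : 0 ≤ θ p ^ ((i - j) + (j - i)) := pow_nonneg hp0 _
      calc _ ≤ θ p ^ ((i - j) + (j - i)) * ((∏ q ∈ Q, c q) *
            (Real.sqrt (Real.sqrt (S i)) ^ 3 * Real.sqrt (Real.sqrt (T j)) ^ 3)) :=
            mul_le_mul_of_nonneg_left h2 h3
        _ = _ := by ring
    have hsplit : ∑ v ∈ V, ∑ w ∈ W,
        (∏ q ∈ insert p Q, θ q ^ ((e v q - e w q) + (e w q - e v q))) * a v ^ 3 * b w ^ 3 =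
        ∑ i ∈ range n, ∑ j ∈ range n, ∑ v ∈ VV i, ∑ w ∈ WW j,
          (∏ q ∈ insert p Q, θ q ^ ((e v q - e w q) + (e w q - e v q))) * a v ^ 3 * b w ^ 3 := by
      rw [← Finset.sum_fiberwise_of_maps_to hVm]
      apply Finset.sum_congr rfl
      intro i _
      symm
      rw [Finset.sum_comm]
      apply Finset.sum_congr rfl
      intro v _
      exact Finset.sum_fiberwise_of_maps_to hWm _
    rw [hsplit]
    have hl := hloc n (fun i => Real.sqrt (Real.sqrt (S i))) (fun j => Real.sqrt (Real.sqrt (T j)))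
      (fun i => Real.sqrt_nonneg _) (fun j => Real.sqrt_nonneg _)
    have e1 : ∑ i ∈ range n, Real.sqrt (Real.sqrt (S i)) ^ 4 = ∑ v ∈ V, a v ^ 4 := by
      rw [← hSs]
      exact Finset.sum_congr rfl fun i _ => r4 _ (hS0 i)
    have e2 : ∑ j ∈ range n, Real.sqrt (Real.sqrt (T j)) ^ 4 = ∑ w ∈ W, b w ^ 4 := by
      rw [← hTs]
      exact Finset.sum_congr rfl fun j _ => r4 _ (hT0 j)
    simp only [e1, e2] at hl
    calc _ ≤ ∑ i ∈ range n, ∑ j ∈ range n, (∏ q ∈ Q, c q) * (θ p ^ ((i - j) + (j - i)) *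
          Real.sqrt (Real.sqrt (S i)) ^ 3 * Real.sqrt (Real.sqrt (T j)) ^ 3) :=
          Finset.sum_le_sum fun i _ => Finset.sum_le_sum fun j _ => key i j
      _ = (∏ q ∈ Q, c q) * ∑ i ∈ range n, ∑ j ∈ range n, θ p ^ ((i - j) + (j - i)) *
          Real.sqrt (Real.sqrt (S i)) ^ 3 * Real.sqrt (Real.sqrt (T j)) ^ 3 := by
          rw [Finset.mul_sum]
          apply Finset.sum_congr rfl
          intro i _
          rw [Finset.mul_sum]
      _ ≤ (∏ q ∈ Q, c q) * (c p * (Real.sqrt (Real.sqrt ((∑ v ∈ V, a v ^ 4) *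
            ∑ w ∈ W, b w ^ 4))) ^ 3) := mul_le_mul_of_nonneg_left hl hC
      _ = _ := by rw [Finset.prod_insert hp]; ring

end Pool.Agent.W2helper24.KG
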